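import Pool.Agent.P.MP_a62d3c_co.One

namespace Pool.Agent.Results.MP_a62d3c_co.ConvexPlusOne

open Pool.Agent.P.MP_a62d3c_co

/-- Every planar point set in general position that is in convex position after deleting one
point `r` has a realization with integer distances. -/
theorem result (S : Finset Pt) (hgp : GeneralPosition S) (r : Pt)
    (h : ∀ x ∈ S, x ≠ r → x ∉ convexHull ℝ ((S : Set Pt) \ {x, r})) :
    IntRealizable S :=
  one_extra hgp r h

end Pool.Agent.Results.MP_a62d3c_co.ConvexPlusOne
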