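import Pool.Agent.P.MP_a62d3c_co.FB.MRed

namespace Pool.Agent.Results.MP_a62d3c_co.NoEntireFamily

open Pool.Agent.P.MP_a62d3c_co Pool.Agent.P.MP_a62d3c_co.FF Filter Topology

/-- There is a stretched configuration `S` with the following property. Let `d i j` be meromorphic
functions on the complex line that are the mutual distances of `n` points of the complexified plane
for a set of parameters with an accumulation point, and that at the parameter `t₀` are the distances
of `n` distinct real points containing a realization of `S`. Then the family is constant up to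
scaling. -/
theorem result : ∃ S : Finset Pt, Stretched S ∧
    ∀ (n : ℕ) (d : Fin n → Fin n → ℂ → ℂ) (p : Fin n → Pt) (t₀ : ℂ),
      (∀ i j, Meromorphic (d i j)) →
      (∃ a : ℂ, ∃ᶠ t in 𝓝[≠] a, ∃ u v : Fin n → ℂ,
        ∀ i j, d i j t ^ 2 = (u i - u j) ^ 2 + (v i - v j) ^ 2) →
      (∀ i j, AnalyticAt ℂ (d i j) t₀) →
      (∀ i j, d i j t₀ ^ 2 = ((dist (p i) (p j) : ℝ) : ℂ) ^ 2) → Function.Injective p →
      ∀ f : Pt → Fin n,
        (∀ a ∈ S, ∀ b ∈ S, ∀ c ∈ S, orient (p (f a)) (p (f b)) (p (f c)) = orient a b c) →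
        ∀ t, (∀ i j, AnalyticAt ℂ (d i j) t) →
          ∃ r : ℂ, ∀ i j, d i j t ^ 2 = r * ((dist (p i) (p j) : ℝ) : ℂ) ^ 2 :=
  finalM

end Pool.Agent.Results.MP_a62d3c_co.NoEntireFamily
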