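import Pool.Agent.P.MP_a62d3c_co.Two

namespace Pool.Agent.Results.MP_a62d3c_co.TwoInterior

open Pool.Agent.P.MP_a62d3c_co

/-- Every planar point set in general position in which at most two points lie in the convex
hull of the other points has a realization with integer distances. -/
theorem result (S : Finset Pt) (hgp : GeneralPosition S)
    (h : {x : Pt | x ∈ S ∧ x ∈ convexHull ℝ ((S : Set Pt) \ {x})}.ncard ≤ 2) :
    IntRealizable S :=
  two_interior hgp h

end Pool.Agent.Results.MP_a62d3c_co.TwoInterior
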